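import Mathlib

/-!
# Expansions of graphs in all uniformities: the definitions

The vertices of the `r`-uniform expansion of a graph `G` on `V` are the elements of `V` and, for
every edge of `G`, `r - 2` new vertices. For `r = 3` this is the expansion `G⁺`.
-/

set_option autoImplicit false

namespace Pool.Agent.H17.Exp

open Finset

universe u

variable {V : Type u}

open Classical in
/-- The edge of the `r`-uniform expansion of `G` over the edge `uv` of `G`: it consists of `u`, `v`
and `r - 2` new vertices, which lie in no other edge. -/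
noncomputable def edge (G : SimpleGraph V) (r : ℕ) {u v : V} (h : G.Adj u v) :
    Finset (V ⊕ G.edgeSet × Fin (r - 2)) :=
  insert (Sum.inl u) (insert (Sum.inl v) (univ.image fun i => Sum.inr (⟨s(u, v), h⟩, i)))

open Classical in
/-- `X` meets every edge of the `r`-uniform expansion of `G` in exactly one vertex. -/
def IsCrosscut (G : SimpleGraph V) (r : ℕ) (X : Finset (V ⊕ G.edgeSet × Fin (r - 2))) : Prop :=
  ∀ (u v : V) (h : G.Adj u v), (edge G r h ∩ X).card = 1

/-- The crosscut number of the `r`-uniform expansion of `G`. -/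
noncomputable def sigma (G : SimpleGraph V) (r : ℕ) : ℕ :=
  sInf {k | ∃ X, IsCrosscut G r X ∧ X.card = k}

/-- `H` contains a copy of the `r`-uniform expansion of `G`. -/
def HasCopy (G : SimpleGraph V) (r : ℕ) {n : ℕ} (H : Finset (Finset (Fin n))) : Prop :=
  ∃ F : V ⊕ G.edgeSet × Fin (r - 2) ↪ Fin n, ∀ (u v : V) (h : G.Adj u v), (edge G r h).map F ∈ H

/-- The largest number of edges of an `r`-graph on `n` vertices which contains no copy of the
`r`-uniform expansion of `G`. -/
noncomputable def ex (G : SimpleGraph V) (r n : ℕ) : ℕ :=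
  sSup {m | ∃ H : Finset (Finset (Fin n)), (∀ e ∈ H, e.card = r) ∧ ¬ HasCopy G r H ∧ H.card = m}

/-- `G` without the edges which meet `S`. Up to isolated vertices, which do not matter for the
crosscut number, this is `G - S`. -/
def remove (G : SimpleGraph V) (S : Finset V) : SimpleGraph V where
  Adj a b := G.Adj a b ∧ a ∉ S ∧ b ∉ S
  symm := ⟨fun _ _ h => ⟨h.1.symm, h.2.2, h.2.1⟩⟩
  loopless := ⟨fun _ h => h.1.ne rfl⟩

end Pool.Agent.H17.Exp
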