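import Pool.Agent.H17.Exp.Shape
import Pool.Agent.H17.Exp.Defs

/-! Counting complete subgraphs in graphs without a copy of a graph of small crosscut number. -/

set_option autoImplicit false

namespace Pool.Agent.H17.Exp

open Finset

universe u

/-- every edge of `G` is in `F` or has exactly one end in `I`, and not both -/
def Pick2 {V : Type u} (G : SimpleGraph V) (I : Finset V) (F : Finset (Sym2 V)) : Prop :=
  ∀ u v : V, G.Adj u v → (u ∈ I ∧ v ∉ I ∧ s(u, v) ∉ F) ∨ (u ∉ I ∧ v ∈ I ∧ s(u, v) ∉ F) ∨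
    (u ∉ I ∧ v ∉ I ∧ s(u, v) ∈ F)

theorem cover2 {α : Type*} (F : Finset α) (a₀ : α) (h : F.card ≤ 2) :
    ∃ a b, ∀ x ∈ F, x = a ∨ x = b := by
  classical
  have : F.card = 0 ∨ F.card = 1 ∨ F.card = 2 := by omega
  rcases this with h | h | h
  · rw [card_eq_zero] at h; subst h; exact ⟨a₀, a₀, by simp⟩
  · obtain ⟨a, rfl⟩ := card_eq_one.1 h; exact ⟨a, a, by simp⟩
  · obtain ⟨a, b, -, rfl⟩ := card_eq_two.1 h; exact ⟨a, b, by simp⟩

theorem cover3 {α : Type*} (F : Finset α) (a₀ : α) (h : F.card ≤ 3) :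
    ∃ a b c, ∀ x ∈ F, x = a ∨ x = b ∨ x = c := by
  classical
  have : F.card ≤ 2 ∨ F.card = 3 := by omega
  rcases this with h | h
  · obtain ⟨a, b, h⟩ := cover2 F a₀ h
    exact ⟨a, b, b, fun x hx => by have := h x hx; tauto⟩
  · obtain ⟨a, b, c, -, -, -, rfl⟩ := card_eq_three.1 h; exact ⟨a, b, c, by simp⟩

theorem shape' {V : Type u} (G : SimpleGraph V) (I : Finset V) (F : Finset (Sym2 V))
    (hc : I.card + F.card ≤ 3) (v₀ : V) (hX : Pick2 G I F) :
    (∃ a b c : V, ∀ u v, G.Adj u v → ((u = a ∨ u = b ∨ u = c) ↔ ¬ (v = a ∨ v = b ∨ v = c))) ∨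
    (∃ a b x y : V, ¬ (x = a ∨ x = b) ∧ ¬ (y = a ∨ y = b) ∧
      ∀ u v, G.Adj u v → ((u = a ∨ u = b) ↔ ¬ (v = a ∨ v = b)) ∨ s(u, v) = s(x, y)) ∨
    (∃ (h : V) (e1 e2 : Sym2 V),
      ∀ u v, G.Adj u v → u ≠ h → v ≠ h → s(u, v) = e1 ∨ s(u, v) = e2) := by
  classical
  have hI : I.card = 3 ∨ I.card = 2 ∨ I.card = 1 ∨ I.card = 0 := by omega
  rcases hI with hI | hI | hI | hI
  · obtain ⟨a, b, c, -, -, -, rfl⟩ := card_eq_three.1 hI
    have hF : F = ∅ := card_eq_zero.1 (by omega)
    subst hF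
    refine Or.inl ⟨a, b, c, fun u v h => ?_⟩
    have := hX u v h
    simp only [mem_insert, mem_singleton, notMem_empty] at this
    tauto
  · obtain ⟨a, b, -, rfl⟩ := card_eq_two.1 hI
    by_cases hF : ∃ x y, G.Adj x y ∧ x ∉ ({a, b} : Finset V) ∧ y ∉ ({a, b} : Finset V)
    · obtain ⟨x, y, hxy, hx, hy⟩ := hF
      have hxF : s(x, y) ∈ F := by
        have := hX x y hxy
        tauto
      have hF1 : F = {s(x, y)} := by
        obtain ⟨e, he⟩ := card_eq_one.1 (show F.card = 1 by
          have := card_pos.2 ⟨_, hxF⟩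
          omega)
        rw [he] at hxF ⊢
        rw [mem_singleton.1 hxF]
      subst hF1
      refine Or.inr (Or.inl ⟨a, b, x, y, by simpa using hx, by simpa using hy, fun u v h => ?_⟩)
      have := hX u v h
      simp only [mem_insert, mem_singleton] at this
      tauto
    · push Not at hF
      refine Or.inl ⟨a, b, b, fun u v h => ?_⟩
      have h1 := hX u v h
      have h2 := hF u v h
      simp only [mem_insert, mem_singleton] at h1 h2
      tauto
  · obtain ⟨a, rfl⟩ := card_eq_one.1 hI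
    obtain ⟨e1, e2, h12⟩ := cover2 F s(v₀, v₀) (by omega)
    refine Or.inr (Or.inr ⟨a, e1, e2, fun u v h hu hv => ?_⟩)
    have := hX u v h
    simp only [mem_singleton] at this
    exact h12 s(u, v) (by tauto)
  · have := card_eq_zero.1 hI
    subst this
    obtain ⟨e1, e2, e3, h12⟩ := cover3 F s(v₀, v₀) (by omega)
    induction e3 using Sym2.ind with
    | h x y =>
    refine Or.inr (Or.inr ⟨x, e1, e2, fun u v h hu hv => ?_⟩)
    have := hX u v h
    simp only [notMem_empty] at this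
    have h3 := h12 s(u, v) (by tauto)
    rcases h3 with h3 | h3 | h3
    · exact Or.inl h3
    · exact Or.inr h3
    · simp only [Sym2.eq_iff] at h3
      tauto

variable {n : ℕ}

open Classical in
/-- the sets of `r` pairwise adjacent vertices -/
noncomputable def cliq (Γ : SimpleGraph (Fin n)) (r : ℕ) : Finset (Finset (Fin n)) :=
  (powersetCard r univ).filter fun e => ∀ x ∈ e, ∀ y ∈ e, x ≠ y → Γ.Adj x y

/-- the edges in the neighbourhood of `v` -/
def nb (Γ : SimpleGraph (Fin n)) (v : Fin n) : SimpleGraph (Fin n) where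
  Adj a b := Γ.Adj a b ∧ Γ.Adj v a ∧ Γ.Adj v b
  symm := ⟨fun _ _ h => ⟨h.1.symm, h.2.2, h.2.1⟩⟩
  loopless := ⟨fun _ h => h.1.ne rfl⟩

/-- the edges which do not contain `x` -/
def del {V : Type u} (G : SimpleGraph V) (x : V) : SimpleGraph V where
  Adj a b := G.Adj a b ∧ a ≠ x ∧ b ≠ x
  symm := ⟨fun _ _ h => ⟨h.1.symm, h.2.2, h.2.1⟩⟩
  loopless := ⟨fun _ h => h.1.ne rfl⟩

theorem mem_cliq {Γ : SimpleGraph (Fin n)} {r : ℕ} {e : Finset (Fin n)} :
    e ∈ cliq Γ r ↔ e.card = r ∧ ∀ x ∈ e, ∀ y ∈ e, x ≠ y → Γ.Adj x y := by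
  classical
  simp [cliq, mem_powersetCard]

theorem emb_of_nb {V : Type u} {G : SimpleGraph V} {Γ : SimpleGraph (Fin n)} (x : V) (v : Fin n)
    (h : Emb (del G x) (nb Γ v)) : Emb G Γ := by
  classical
  obtain ⟨f, f1, f2, f3⟩ := h
  have hv : ∀ u, Γ.Adj v (f u) := fun u => by
    obtain ⟨w, hw⟩ := f3 u
    exact hw.2.1
  refine ⟨fun u => if u = x then v else f u, fun a b hab => ?_, fun a b hab => ?_, fun u => ?_⟩
  · simp only at hab
    split_ifs at hab with h1 h2 h2
    · rw [h1, h2]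
    · exact absurd hab (hv b).ne
    · exact absurd hab (hv a).ne'
    · exact f1 hab
  · simp only
    split_ifs with h1 h2 h2
    · exact absurd (h1.trans h2.symm) hab.ne
    · exact hv b
    · exact (hv a).symm
    · exact (f2 a b ⟨hab, h1, h2⟩).1
  · simp only
    split_ifs with h1
    · exact ⟨_, hv x⟩
    · exact ⟨v, (hv u).symm⟩

open Classical in
theorem cliq_succ (Γ : SimpleGraph (Fin n)) (r : ℕ) :
    (r + 1) * (cliq Γ (r + 1)).card ≤ ∑ v, (cliq (nb Γ v) r).card := by
  have h1 := sum_card_bipartiteAbove_eq_sum_card_bipartiteBelow (s := cliq Γ (r + 1))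
    (t := (univ : Finset (Fin n))) (fun e v => v ∈ e)
  have h2 : (r + 1) * (cliq Γ (r + 1)).card ≤ ∑ e ∈ cliq Γ (r + 1),
      ((univ : Finset (Fin n)).bipartiteAbove (fun e v => v ∈ e) e).card := by
    rw [mul_comm, ← smul_eq_mul]
    refine card_nsmul_le_sum _ _ _ fun e he => ?_
    rw [← (mem_cliq.1 he).1]
    exact card_le_card fun v hv => (mem_bipartiteAbove _).2 ⟨mem_univ _, hv⟩
  refine h2.trans (h1.le.trans (sum_le_sum fun v _ => ?_))
  refine card_le_card_of_injOn (fun e => e.erase v) (fun e he => ?_) (fun e he e' he' h => ?_)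
  · obtain ⟨he, hv⟩ := (mem_bipartiteBelow _).1 he
    obtain ⟨h3, h4⟩ := mem_cliq.1 he
    refine mem_cliq.2 ⟨by rw [card_erase_of_mem hv, h3]; rfl, fun x hx y hy hxy => ?_⟩
    obtain ⟨x1, x2⟩ := mem_erase.1 hx
    obtain ⟨y1, y2⟩ := mem_erase.1 hy
    exact ⟨h4 x x2 y y2 hxy, h4 v hv x x2 x1.symm, h4 v hv y y2 y1.symm⟩
  · obtain ⟨-, hv⟩ := (mem_bipartiteBelow _).1 (mem_coe.1 he)
    obtain ⟨-, hv'⟩ := (mem_bipartiteBelow _).1 (mem_coe.1 he')
    simp only at h
    rw [← insert_erase hv, h, insert_erase hv']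

open Classical in
theorem six_cliq (Γ : SimpleGraph (Fin n)) : 6 * (cliq Γ 3).card ≤ tri Γ := by
  set L := cliq Γ 3 with hL
  set T : Finset (Fin n × Fin n × Fin n) := (univ : Finset (Fin n)).biUnion fun v =>
    (Γ.neighborFinset v).biUnion fun x =>
      (Γ.neighborFinset v ∩ Γ.neighborFinset x).image fun y => (v, x, y) with hT
  have hTc : T.card ≤ tri Γ := card_biUnion_le.trans (sum_le_sum fun v _ => card_biUnion_le.trans
    (sum_le_sum fun x _ => card_image_le))
  have hTm : ∀ v x y, Γ.Adj v x → Γ.Adj v y → Γ.Adj x y → (v, x, y) ∈ T := fun v x y h1 h2 h3 =>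
    mem_biUnion.2 ⟨v, mem_univ _, mem_biUnion.2 ⟨x, by simpa using h1,
      mem_image.2 ⟨y, by simp [h2, h3], rfl⟩⟩⟩
  set R : Finset (Fin n) → Fin n × Fin n × Fin n → Prop :=
    fun e p => e = {p.1, p.2.1, p.2.2} with hR
  have h1 := sum_card_bipartiteAbove_eq_sum_card_bipartiteBelow (s := L) (t := T) R
  have h2 : 6 * L.card ≤ ∑ e ∈ L, (T.bipartiteAbove R e).card := by
    rw [mul_comm, ← smul_eq_mul]
    refine card_nsmul_le_sum _ _ _ fun e he => ?_
    obtain ⟨hc, h3⟩ := mem_cliq.1 he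
    obtain ⟨a, b, c, hab, hac, hbc, rfl⟩ := card_eq_three.1 hc
    have ha : a ∈ ({a, b, c} : Finset (Fin n)) := by simp
    have hb : b ∈ ({a, b, c} : Finset (Fin n)) := by simp
    have hc' : c ∈ ({a, b, c} : Finset (Fin n)) := by simp
    have key : ∀ x ∈ ({a, b, c} : Finset (Fin n)), ∀ y ∈ ({a, b, c} : Finset (Fin n)),
        ∀ z ∈ ({a, b, c} : Finset (Fin n)), x ≠ y → x ≠ z → y ≠ z →
        ({a, b, c} : Finset (Fin n)) = {x, y, z} → (x, y, z) ∈ T.bipartiteAbove R {a, b, c} :=
      fun x hx y hy z hz hxy hxz hyz hs => (mem_bipartiteAbove _).2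
        ⟨hTm x y z (h3 x hx y hy hxy) (h3 x hx z hz hxz) (h3 y hy z hz hyz), hs⟩
    have hsub : ({(a, b, c), (a, c, b), (b, a, c), (b, c, a), (c, a, b), (c, b, a)} :
        Finset (Fin n × Fin n × Fin n)) ⊆ T.bipartiteAbove R {a, b, c} := by
      intro p hp
      simp only [mem_insert, mem_singleton] at hp
      rcases hp with rfl | rfl | rfl | rfl | rfl | rfl
      · exact key a ha b hb c hc' hab hac hbc rfl
      · exact key a ha c hc' b hb hac hab hbc.symm (by
          ext w; simp only [mem_insert, mem_singleton]; tauto)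
      · exact key b hb a ha c hc' hab.symm hbc hac (by
          ext w; simp only [mem_insert, mem_singleton]; tauto)
      · exact key b hb c hc' a ha hbc hab.symm hac.symm (by
          ext w; simp only [mem_insert, mem_singleton]; tauto)
      · exact key c hc' a ha b hb hac.symm hbc.symm hab (by
          ext w; simp only [mem_insert, mem_singleton]; tauto)
      · exact key c hc' b hb a ha hbc.symm hac.symm hab.symm (by
          ext w; simp only [mem_insert, mem_singleton]; tauto)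
    refine le_trans (le_of_eq ?_) (card_le_card hsub)
    rw [card_insert_of_notMem, card_insert_of_notMem, card_insert_of_notMem, card_insert_of_notMem,
      card_insert_of_notMem, card_singleton]
    all_goals simp [hab, hac, hbc, hab.symm, hac.symm, hbc.symm]
  have h4 : ∑ p ∈ T, (L.bipartiteBelow R p).card ≤ ∑ _p ∈ T, 1 := by
    refine sum_le_sum fun p _ => card_le_one.2 fun e he e' he' => ?_
    have h5 : R e p := ((mem_bipartiteBelow _).1 he).2
    have h6 : R e' p := ((mem_bipartiteBelow _).1 he').2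
    rw [hR] at h5 h6
    exact h5.trans h6.symm
  rw [sum_const, smul_eq_mul, mul_one] at h4
  exact h2.trans (h1.le.trans (h4.trans hTc))

/-- A graph of crosscut number at most `r` has crosscut number at most three after the removal of
`r - 3` vertices. -/
theorem exists_remove {V : Type u} (v₀ : V) (r : ℕ) (hr : 3 ≤ r) :
    ∀ (G : SimpleGraph V) (I : Finset V) (F : Finset (Sym2 V)), Pick2 G I F →
      I.card + F.card ≤ r → ∃ S : Finset V, S.card ≤ r - 3 ∧
        ∃ (I' : Finset V) (F' : Finset (Sym2 V)), Pick2 (remove G S) I' F' ∧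
          I'.card + F'.card ≤ 3 := by
  classical
  induction r, hr using Nat.le_induction with
  | base =>
    intro G I F hP hc
    exact ⟨∅, by simp, I, F, fun u v h => hP u v h.1, hc⟩
  | succ r hr ih =>
    intro G I F hP hc
    obtain ⟨x, I', F', hP', hc'⟩ : ∃ (x : V) (I' : Finset V) (F' : Finset (Sym2 V)),
        Pick2 (del G x) I' F' ∧ I'.card + F'.card ≤ r := by
      rcases I.eq_empty_or_nonempty with rfl | ⟨x, hx⟩
      · rcases F.eq_empty_or_nonempty with rfl | ⟨e, he⟩
        · exact ⟨v₀, ∅, ∅, fun u v h => hP u v h.1, by simp⟩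
        · induction e using Sym2.ind with
          | h x y =>
            refine ⟨x, ∅, F.erase s(x, y), fun u v h => ?_, ?_⟩
            · have h1 := hP u v h.1
              have h2 : s(u, v) ≠ s(x, y) := by
                intro h3
                rcases Sym2.eq_iff.1 h3 with ⟨h4, -⟩ | ⟨-, h4⟩
                · exact h.2.1 h4
                · exact h.2.2 h4
              simp only [notMem_empty, mem_erase] at h1 ⊢
              tauto
            · rw [card_erase_of_mem he]
              have := card_pos.2 ⟨_, he⟩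
              simp only [card_empty] at hc ⊢
              omega
      · refine ⟨x, I.erase x, F, fun u v h => ?_, ?_⟩
        · have h1 := hP u v h.1
          have h2 := h.2
          simp only [mem_erase]
          tauto
        · rw [card_erase_of_mem hx]
          have := card_pos.2 ⟨_, hx⟩
          omega
    obtain ⟨S, hS, I'', F'', h1, h2⟩ := ih (del G x) I' F' hP' hc'
    refine ⟨insert x S, (card_insert_le _ _).trans (by omega), I'', F'', fun u v h => ?_, h2⟩
    obtain ⟨h3, h4, h5⟩ := h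
    rw [mem_insert, not_or] at h4 h5
    exact h1 u v ⟨⟨h3, h4.1, h5.1⟩, h4.2, h5.2⟩

open Nat in
theorem cliq_bound {V : Type u} [Fintype V] (v₀ : V) (r : ℕ) (hr : 3 ≤ r) :
    ∀ (G : SimpleGraph V) (S : Finset V), S.card ≤ r - 3 →
      ∀ (I : Finset V) (F : Finset (Sym2 V)), Pick2 (remove G S) I F →
      I.card + F.card ≤ 3 → ∀ (n : ℕ) (Γ : SimpleGraph (Fin n)), ¬ Emb G Γ →
      r ! * (cliq Γ r).card ≤ (Fintype.card V + 3) * n ^ (r - 1) := by
  classical
  induction r, hr using Nat.le_induction with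
  | base =>
    intro G S hS I F hP hc n Γ hno
    have hS0 : S = ∅ := card_eq_zero.1 (by omega)
    subst hS0
    have hP : Pick2 G I F := fun u v h => hP u v ⟨h, by simp, by simp⟩
    have ht : tri Γ ≤ (Fintype.card V + 3) * n ^ 2 := by
      rcases shape' G I F hc v₀ hP with ⟨a, b, c, h⟩ | ⟨a, b, x, y, hx, hy, h⟩ | ⟨h, e1, e2, h'⟩
      · exact caseA G _ hno a b c h
      · exact (caseB G _ hno a b x y hx hy h).trans (Nat.mul_le_mul_right _ (by omega))
      · exact (caseC G _ hno h e1 e2 h').trans (Nat.mul_le_mul_right _ (by omega))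
    exact (six_cliq Γ).trans ht
  | succ r hr ih =>
    intro G S hS I F hP hc n Γ hno
    obtain ⟨x, S', hS', hP'⟩ : ∃ (x : V) (S' : Finset V), S'.card ≤ r - 3 ∧
        Pick2 (remove (del G x) S') I F := by
      rcases S.eq_empty_or_nonempty with rfl | ⟨x, hx⟩
      · exact ⟨v₀, ∅, by simp, fun u v h => hP u v ⟨h.1.1, h.2.1, h.2.2⟩⟩
      · refine ⟨x, S.erase x, ?_, fun u v h => hP u v ?_⟩
        · rw [card_erase_of_mem hx]
          omega
        · obtain ⟨⟨h1, h2, h3⟩, h4, h5⟩ := h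
          exact ⟨h1, fun h => h4 (mem_erase.2 ⟨h2, h⟩), fun h => h5 (mem_erase.2 ⟨h3, h⟩)⟩
    have h1 : ∀ v, r ! * (cliq (nb Γ v) r).card ≤ (Fintype.card V + 3) * n ^ (r - 1) :=
      fun v => ih (del G x) S' hS' I F hP' hc n (nb Γ v) fun h => hno (emb_of_nb x v h)
    calc (r + 1) ! * (cliq Γ (r + 1)).card = r ! * ((r + 1) * (cliq Γ (r + 1)).card) := by
          rw [Nat.factorial_succ]; ring
      _ ≤ r ! * ∑ v, (cliq (nb Γ v) r).card := Nat.mul_le_mul_left _ (cliq_succ Γ r)
      _ = ∑ v, r ! * (cliq (nb Γ v) r).card := mul_sum _ _ _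
      _ ≤ ∑ _v : Fin n, (Fintype.card V + 3) * n ^ (r - 1) := sum_le_sum fun v _ => h1 v
      _ = (Fintype.card V + 3) * (n ^ (r - 1) * n) := by
          rw [sum_const, Finset.card_univ, Fintype.card_fin, smul_eq_mul]; ring
      _ = _ := by rw [← pow_succ, show r - 1 + 1 = r + 1 - 1 by omega]

end Pool.Agent.H17.Exp
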