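import Pool.Agent.H17.Exp.Uni
import Pool.Agent.H17.Exp.Cliques
import Pool.Agent.H17.Exp.Defs

/-! Expansions of graphs in all uniformities: crosscuts and the upper bound. -/

set_option autoImplicit false

namespace Pool.Agent.H17.Exp

open Finset

universe u

variable {V : Type u}

/-- every edge of `G` is in `F` or has exactly one end in `I`, and not both -/
def Pick (G : SimpleGraph V) (I : Finset V) (F : Finset G.edgeSet) : Prop :=
  ∀ (u v : V) (h : G.Adj u v),
    (u ∈ I ∧ v ∉ I ∧ (⟨s(u, v), (SimpleGraph.mem_edgeSet G).mpr h⟩ : G.edgeSet) ∉ F) ∨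
    (u ∉ I ∧ v ∈ I ∧ (⟨s(u, v), (SimpleGraph.mem_edgeSet G).mpr h⟩ : G.edgeSet) ∉ F) ∨
    (u ∉ I ∧ v ∉ I ∧ (⟨s(u, v), (SimpleGraph.mem_edgeSet G).mpr h⟩ : G.edgeSet) ∈ F)


variable {G : SimpleGraph V}

theorem pick_of_crosscut {r : ℕ} {X : Finset (V ⊕ G.edgeSet × Fin (r - 2))}
    (hX : IsCrosscut G r X) : ∃ I F, Pick G I F ∧ I.card + F.card = X.card := by
  classical
  have key : ∀ (u v : V) (h : G.Adj u v) a b, a ∈ edge G r h → b ∈ edge G r h → a ∈ X → b ∈ X →
      a = b := fun u v h a b ha hb ha' hb' => by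
    have := hX u v h
    exact card_le_one.1 this.le a (mem_inter.2 ⟨ha, ha'⟩) b (mem_inter.2 ⟨hb, hb'⟩)
  have m1 : ∀ (u v : V) (h : G.Adj u v), Sum.inl u ∈ edge G r h := fun u v h => by simp [edge]
  have m2 : ∀ (u v : V) (h : G.Adj u v), Sum.inl v ∈ edge G r h := fun u v h => by simp [edge]
  have m3 : ∀ (u v : V) (h : G.Adj u v) i,
      Sum.inr ((⟨s(u, v), (SimpleGraph.mem_edgeSet G).mpr h⟩ : G.edgeSet), i) ∈ edge G r h :=
    fun u v h i => by simp [edge]
  refine ⟨X.toLeft, X.toRight.image Prod.fst, fun u v h => ?_, ?_⟩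
  · simp only [mem_toLeft, mem_image, mem_toRight, Prod.exists, exists_and_right, exists_eq_right]
    by_cases a : Sum.inl u ∈ X
    · refine Or.inl ⟨a, fun b => ?_, fun ⟨i, c⟩ => ?_⟩
      · exact h.ne (Sum.inl.inj (key u v h _ _ (m1 u v h) (m2 u v h) a b))
      · simpa using key u v h _ _ (m1 u v h) (m3 u v h i) a c
    by_cases b : Sum.inl v ∈ X
    · refine Or.inr (Or.inl ⟨a, b, fun ⟨i, c⟩ => ?_⟩)
      simpa using key u v h _ _ (m2 u v h) (m3 u v h i) b c
    refine Or.inr (Or.inr ⟨a, b, ?_⟩)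
    obtain ⟨x, hx⟩ := card_pos.1 (by rw [hX u v h]; exact one_pos)
    obtain ⟨h1, h2⟩ := mem_inter.1 hx
    simp only [edge, mem_insert, mem_image, mem_univ, true_and] at h1
    rcases h1 with rfl | rfl | ⟨i, rfl⟩
    · exact absurd h2 a
    · exact absurd h2 b
    · exact ⟨i, h2⟩
  · rw [card_image_of_injOn, card_toLeft_add_card_toRight]
    rintro ⟨⟨e, he⟩, i⟩ h1 ⟨e', j⟩ h2 h3
    simp only at h3
    subst h3
    induction e using Sym2.ind with
    | h x y =>
      have := key x y he _ _ (m3 x y he i) (m3 x y he j) (mem_toRight.1 (mem_coe.1 h1))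
        (mem_toRight.1 (mem_coe.1 h2))
      exact Sum.inr.inj this

theorem crosscut_of_pick {r : ℕ} (hr : 3 ≤ r) {I : Finset V} {F : Finset G.edgeSet}
    (h : Pick G I F) : ∃ X, IsCrosscut G r X ∧ X.card = I.card + F.card := by
  classical
  let o : Fin (r - 2) := ⟨0, by omega⟩
  refine ⟨I.disjSum (F.image fun e => (e, o)), fun u v huv => ?_, ?_⟩
  · have hne := huv.ne
    rw [card_eq_one]
    rcases h u v huv with ⟨a, b, c⟩ | ⟨a, b, c⟩ | ⟨a, b, c⟩
    · refine ⟨Sum.inl u, ?_⟩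
      ext x
      simp only [edge, mem_inter, mem_insert, mem_image, mem_univ, true_and, mem_disjSum,
        mem_singleton]
      constructor
      · rintro ⟨rfl | rfl | ⟨i, rfl⟩, h2⟩
        · rfl
        · simp [b] at h2
        · rcases h2 with ⟨_, _, h4⟩ | ⟨_, ⟨e, he, rfl⟩, h4⟩
          · exact absurd h4 Sum.inl_ne_inr
          · exact absurd ((Prod.mk.inj (Sum.inr.inj h4)).1 ▸ he) c
      · rintro rfl
        simp [a]
    · refine ⟨Sum.inl v, ?_⟩
      ext x
      simp only [edge, mem_inter, mem_insert, mem_image, mem_univ, true_and, mem_disjSum,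
        mem_singleton]
      constructor
      · rintro ⟨rfl | rfl | ⟨i, rfl⟩, h2⟩
        · simp [a] at h2
        · rfl
        · rcases h2 with ⟨_, _, h4⟩ | ⟨_, ⟨e, he, rfl⟩, h4⟩
          · exact absurd h4 Sum.inl_ne_inr
          · exact absurd ((Prod.mk.inj (Sum.inr.inj h4)).1 ▸ he) c
      · rintro rfl
        simp [b]
    · refine ⟨Sum.inr (⟨s(u, v), huv⟩, o), ?_⟩
      ext x
      simp only [edge, mem_inter, mem_insert, mem_image, mem_univ, true_and, mem_disjSum,
        mem_singleton]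
      constructor
      · rintro ⟨rfl | rfl | ⟨i, rfl⟩, h2⟩
        · simp [a] at h2
        · simp [b] at h2
        · obtain ⟨x, hx, h3⟩ : ∃ x, (∃ a ∈ F, (a, o) = x) ∧ Sum.inr x =
              (Sum.inr ((⟨s(u, v), huv⟩ : G.edgeSet), i) : V ⊕ G.edgeSet × Fin (r - 2)) := by
            simpa using h2
          obtain ⟨a, ha, rfl⟩ := hx
          have := Sum.inr.inj h3
          rw [Prod.mk.injEq] at this
          rw [← this.2]
      · rintro rfl
        exact ⟨Or.inr (Or.inr ⟨o, rfl⟩), by simpa using c⟩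
  · rw [card_disjSum, card_image_of_injective _ fun a b h => (Prod.mk.inj h).1]

theorem sigma_eq {r : ℕ} (hr : 3 ≤ r) : sigma G r = sigma G 3 := by
  unfold sigma
  congr 1
  ext k
  constructor
  · rintro ⟨X, hX, rfl⟩
    obtain ⟨I, F, h1, h2⟩ := pick_of_crosscut hX
    obtain ⟨Y, hY, h3⟩ := crosscut_of_pick le_rfl h1
    exact ⟨Y, hY, by omega⟩
  · rintro ⟨X, hX, rfl⟩
    obtain ⟨I, F, h1, h2⟩ := pick_of_crosscut hX
    obtain ⟨Y, hY, h3⟩ := crosscut_of_pick hr h1
    exact ⟨Y, hY, by omega⟩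

theorem pick2_of_pick {I : Finset V} {F : Finset G.edgeSet} (h : Pick G I F) :
    ∃ F' : Finset (Sym2 V), Pick2 G I F' ∧ F'.card = F.card := by
  classical
  refine ⟨F.map (Function.Embedding.subtype _), fun u v huv => ?_, card_map _⟩
  have h1 := h u v huv
  have h2 : s(u, v) ∈ F.map (Function.Embedding.subtype _) ↔
      (⟨s(u, v), (SimpleGraph.mem_edgeSet G).mpr huv⟩ : G.edgeSet) ∈ F := by
    rw [mem_map]
    constructor
    · rintro ⟨⟨e, he⟩, h3, h4⟩
      have h4 : e = s(u, v) := h4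
      subst h4
      exact h3
    · exact fun h3 => ⟨_, h3, rfl⟩
  rw [h2]
  exact h1

theorem pick_of_pick2 [Fintype V] {I : Finset V} {F : Finset (Sym2 V)} (h : Pick2 G I F) :
    ∃ F' : Finset G.edgeSet, Pick G I F' ∧ F'.card ≤ F.card := by
  classical
  refine ⟨univ.filter fun e => e.1 ∈ F, fun u v huv => ?_, ?_⟩
  · have h1 := h u v huv
    simp only [mem_filter, mem_univ, true_and]
    exact h1
  · exact card_le_card_of_injOn Subtype.val (fun e he => (mem_filter.1 he).2)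
      Subtype.val_injective.injOn

theorem sigma_spec [Fintype V] (G : SimpleGraph V) :
    ∃ X, IsCrosscut G 3 X ∧ X.card = sigma G 3 := by
  classical
  have h1 : Pick G ∅ (univ : Finset G.edgeSet) := fun u v h =>
    Or.inr (Or.inr ⟨by simp, by simp, by simp⟩)
  obtain ⟨X, hX, -⟩ := crosscut_of_pick le_rfl h1
  exact Nat.sInf_mem (s := {k | ∃ X, IsCrosscut G 3 X ∧ X.card = k}) ⟨_, X, hX, rfl⟩

theorem exists_remove_of_sigma [Fintype V] (G : SimpleGraph V) (h2 : 1 ≤ sigma G 3) {r : ℕ}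
    (hr : 3 ≤ r) (h3 : sigma G 3 ≤ r) :
    ∃ S : Finset V, S.card ≤ r - 3 ∧ sigma (remove G S) 3 ≤ 3 := by
  classical
  obtain ⟨X, hX, hc⟩ := sigma_spec G
  obtain ⟨I, F₀, hP₀, hIF₀⟩ := pick_of_crosscut hX
  obtain ⟨F, hP, hF⟩ := pick2_of_pick hP₀
  obtain ⟨v₀⟩ : Nonempty V := by
    by_contra hemp
    have : sigma G 3 ≤ 0 := Nat.sInf_le ⟨∅, fun u v h => absurd ⟨u⟩ hemp, rfl⟩
    omega
  obtain ⟨S, hS, I', F', h4, h5⟩ := exists_remove v₀ r hr G I F hP (by omega)
  obtain ⟨F'', h6, h7⟩ := pick_of_pick2 h4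
  obtain ⟨Y, hY, h8⟩ := crosscut_of_pick le_rfl h6
  exact ⟨S, hS, (Nat.sInf_le ⟨Y, hY, rfl⟩ : sigma (remove G S) 3 ≤ Y.card).trans (by omega)⟩

open Nat in
theorem upper [Fintype V] (G : SimpleGraph V) (h2 : 2 ≤ sigma G 3) {r : ℕ} (hr : 3 ≤ r)
    (S : Finset V) (hS : S.card ≤ r - 3) (h3 : sigma (remove G S) 3 ≤ 3) (n : ℕ) (H : Finset (Finset (Fin n))) (hH : ∀ e ∈ H, e.card = r)
    (hno : ¬ HasCopy G r H) :
    2 * r ! * H.card ≤ (2 * (Fintype.card V + 3) + r * (r - 1) * (r - 2) ^ 2 *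
      (Fintype.card V + (r - 2) * Nat.card G.edgeSet)) * n ^ (r - 1) := by
  classical
  obtain ⟨X, hX, hc⟩ := sigma_spec (remove G S)
  obtain ⟨I, F₀, hP₀, hIF₀⟩ := pick_of_crosscut hX
  obtain ⟨F, hP, hF⟩ := pick2_of_pick hP₀
  obtain ⟨v₀⟩ : Nonempty V := by
    by_contra hemp
    have : sigma G 3 ≤ 0 := Nat.sInf_le ⟨∅, fun u v h => absurd ⟨u⟩ hemp, rfl⟩
    omega
  obtain ⟨k, rfl⟩ : ∃ k, r = k + 3 := ⟨r - 3, by omega⟩
  set K := Fintype.card V + (k + 1) * Fintype.card G.edgeSet with hK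
  have hm1 : 1 ≤ k + 1 := by omega
  have hH' : ∀ e ∈ H, e.card = k + 1 + 2 := fun e he => hH e he
  have hno' : ¬ Emb G (heavyU H K) := by
    rintro ⟨f, f1, f2, -⟩
    obtain ⟨g, g1, g2, g3⟩ := expandU G hm1 H hH' K le_rfl f f2
    refine hno ⟨⟨Sum.elim f g, f1.sumElim g1 fun a b => (g2 b a).symm⟩, fun u v h => ?_⟩
    have := g3 u v h
    convert this using 1
    rw [edge, map_insert, map_insert, map_eq_image, image_image]
    rfl
  have hcl := cliq_bound v₀ (k + 3) (by omega) G S hS I F hP (by omega) n (heavyU H K) hno'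
  have hsub : (H.filter fun e => ∀ x ∈ e, ∀ y ∈ e, x ≠ y → (heavyU H K).Adj x y) ⊆
      cliq (heavyU H K) (k + 3) := fun e he =>
    mem_cliq.2 ⟨hH e (mem_filter.1 he).1, (mem_filter.1 he).2⟩
  have hh : (k + 3) ! * (H.filter fun e => ∀ x ∈ e, ∀ y ∈ e, x ≠ y → (heavyU H K).Adj x y).card ≤
      (Fintype.card V + 3) * n ^ (k + 2) := (Nat.mul_le_mul_left _ (card_le_card hsub)).trans hcl
  have hl := two_light hm1 H K hH'
  rw [Nat.add_sub_cancel] at hl
  have hch : (k + 3) ! * n.choose k ≤ (k + 3) * (k + 2) * (k + 1) * n ^ k := by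
    calc (k + 3) ! * n.choose k = (k + 3) * (k + 2) * (k + 1) * (k ! * n.choose k) := by
          rw [Nat.factorial_succ, Nat.factorial_succ, Nat.factorial_succ]; ring
      _ ≤ _ := by
          refine Nat.mul_le_mul_left _ ?_
          rw [← Nat.descFactorial_eq_factorial_mul_choose]
          exact Nat.descFactorial_le_pow _ _
  have hsum := card_filter_add_card_filter_not (s := H)
    (fun e => ∀ x ∈ e, ∀ y ∈ e, x ≠ y → (heavyU H K).Adj x y)
  set A := (H.filter fun e => ∀ x ∈ e, ∀ y ∈ e, x ≠ y → (heavyU H K).Adj x y).card with hA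
  set B := (H.filter fun e => ¬ ∀ x ∈ e, ∀ y ∈ e, x ≠ y → (heavyU H K).Adj x y).card with hB
  have e1 : k + 3 - 1 = k + 2 := rfl
  have e2 : k + 3 - 2 = k + 1 := rfl
  rw [e1, e2, Nat.card_eq_fintype_card, ← hsum]
  calc 2 * (k + 3) ! * (A + B) = 2 * ((k + 3) ! * A) + (k + 3) ! * (2 * B) := by ring
    _ ≤ 2 * ((Fintype.card V + 3) * n ^ (k + 2)) +
        (k + 3) ! * (n ^ 2 * (K * (k + 1) * n.choose k)) := by gcongr
    _ = 2 * ((Fintype.card V + 3) * n ^ (k + 2)) +
        n ^ 2 * (K * (k + 1)) * ((k + 3) ! * n.choose k) := by ring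
    _ ≤ 2 * ((Fintype.card V + 3) * n ^ (k + 2)) +
        n ^ 2 * (K * (k + 1)) * ((k + 3) * (k + 2) * (k + 1) * n ^ k) := by gcongr
    _ = _ := by rw [hK]; ring

theorem lower [Fintype V] (G : SimpleGraph V) {r : ℕ} (hr : 3 ≤ r) (n : ℕ) :
    ∃ H : Finset (Finset (Fin n)), (∀ e ∈ H, e.card = r) ∧ (1 ≤ sigma G 3 → ¬ HasCopy G r H) ∧
      (sigma G 3 - 1) * (n + 1 - sigma G 3).choose (r - 1) ≤ H.card := by
  classical
  set s := sigma G 3 with hs
  by_cases hn : s ≤ n + 1
  swap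
  · refine ⟨∅, by simp, fun h1 => ?_, ?_⟩
    · rintro ⟨F, hF⟩
      have hne : ∃ u v, G.Adj u v := by
        by_contra hno
        push Not at hno
        have : sigma G 3 ≤ 0 := Nat.sInf_le ⟨∅, fun u v h => absurd h (hno u v), rfl⟩
        omega
      obtain ⟨u, v, h⟩ := hne
      simpa using hF u v h
    · rw [show n + 1 - s = 0 by omega, Nat.choose_eq_zero_of_lt (by omega), mul_zero]
      exact Nat.zero_le _
  obtain ⟨S, -, hS⟩ := exists_subset_card_eq (s := (univ : Finset (Fin n))) (n := s - 1)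
    (by rw [card_univ, Fintype.card_fin]; omega)
  refine ⟨(S ×ˢ powersetCard (r - 1) (univ \ S)).image fun q => insert q.1 q.2, ?_, ?_, ?_⟩
  · intro e he
    obtain ⟨⟨a, T⟩, hq, rfl⟩ := mem_image.1 he
    obtain ⟨ha, hT⟩ := mem_product.1 hq
    obtain ⟨t1, t2⟩ := mem_powersetCard.1 hT
    have : a ∉ T := fun h => (mem_sdiff.1 (t1 h)).2 ha
    show (insert a T).card = r
    rw [card_insert_of_notMem this, t2]
    omega
  · rintro h1 ⟨F, hF⟩
    have hle : (univ.filter fun x => F x ∈ S).card ≤ s - 1 := by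
      rw [← hS]
      exact card_le_card_of_injOn F (fun x hx => (mem_filter.1 hx).2) F.injective.injOn
    have : sigma G r ≤ (univ.filter fun x => F x ∈ S).card := by
      refine Nat.sInf_le ⟨_, fun u v h => ?_, rfl⟩
      obtain ⟨⟨a, T⟩, hq, hs⟩ := mem_image.1 (hF u v h)
      obtain ⟨ha, hT⟩ := mem_product.1 hq
      obtain ⟨t1, t2⟩ := mem_powersetCard.1 hT
      have e1 : ((edge G r h ∩ univ.filter fun x => F x ∈ S).map F) = {a} := by
        ext z
        simp only [mem_map, mem_inter, mem_filter, mem_univ, true_and, mem_singleton]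
        constructor
        · rintro ⟨x, ⟨x1, x2⟩, rfl⟩
          have : F x ∈ insert a T := hs ▸ mem_map_of_mem F x1
          rcases mem_insert.1 this with h | h
          · exact h
          · exact absurd x2 (mem_sdiff.1 (t1 h)).2
        · rintro rfl
          obtain ⟨x, x1, x2⟩ := mem_map.1 (hs ▸ mem_insert_self z T : z ∈ (edge G r h).map F)
          exact ⟨x, ⟨x1, x2.symm ▸ ha⟩, x2⟩
      rw [← card_map F, e1, card_singleton]
    rw [sigma_eq hr] at this
    omega
  · rw [card_image_of_injOn, card_product, card_powersetCard, card_sdiff_of_subset (subset_univ _),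
      card_univ, Fintype.card_fin, hS]
    · rcases Nat.eq_zero_or_pos s with h0 | h0
      · rw [h0]; simp
      · rw [show n + 1 - s = n - (s - 1) by omega]
    · rintro ⟨a, T⟩ h1 ⟨b, U⟩ h2 h3
      obtain ⟨ha, hT⟩ := mem_product.1 (mem_coe.1 h1)
      obtain ⟨hb, hU⟩ := mem_product.1 (mem_coe.1 h2)
      have t1 := (mem_powersetCard.1 hT).1
      have u1 := (mem_powersetCard.1 hU).1
      have haT : a ∉ T := fun h => (mem_sdiff.1 (t1 h)).2 ha
      have hbU : b ∉ U := fun h => (mem_sdiff.1 (u1 h)).2 hb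
      have h3 : insert a T = insert b U := h3
      have hab : a = b := by
        have : a ∈ insert b U := h3 ▸ mem_insert_self a T
        rcases mem_insert.1 this with h | h
        · exact h
        · exact absurd ha (mem_sdiff.1 (u1 h)).2
      subst hab
      rw [← erase_insert haT, h3, erase_insert hbU]

end Pool.Agent.H17.Exp
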