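import Pool.Agent.H17.Exp.Tri

/-! The three shapes of graphs whose expansion has a crosscut of size three. -/

namespace Pool.Agent.H17.Exp

open Finset

section Cases

variable {V : Type*} [Fintype V] (G : SimpleGraph V) {n : ℕ} (Γ : SimpleGraph (Fin n))
  [DecidableRel Γ.Adj]

theorem caseA (hno : ¬ Emb G Γ)
    (a b c : V) (hG : ∀ u v, G.Adj u v → ((u = a ∨ u = b ∨ u = c) ↔ ¬ (v = a ∨ v = b ∨ v = c))) :
    tri Γ ≤ (Fintype.card V + 3) * n ^ 2 := by
  classical
  refine tri3 Γ _ fun x y z hxy hxz hyz => ?_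
  by_contra hc
  refine hno (embed G Γ (fun u => u = a ∨ u = b ∨ u = c)
    (fun u => if u = a then x else if u = b then y else z)
    (fun _ => univ.filter (fun w => Γ.Adj x w ∧ Γ.Adj y w ∧ Γ.Adj z w)) ?_
    (fun _ _ => (not_le.1 hc).le) ?_ ?_ ?_ ?_ ?_)
  · intro u v hu hv h
    split_ifs at h <;> grind
  · intro u v h
    have := hG u v h
    tauto
  · intro u v h hu hv
    exact absurd hv ((hG u v h).1 hu)
  · intro u v _ _ _ w hw
    obtain ⟨w1, w2, w3⟩ := (mem_filter.1 hw).2
    split_ifs <;> assumption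
  · intro u _
    obtain ⟨w, hw⟩ := card_pos.1 (lt_of_le_of_lt (Nat.zero_le _) (not_le.1 hc))
    obtain ⟨w1, w2, w3⟩ := (mem_filter.1 hw).2
    refine ⟨w, ?_⟩
    split_ifs <;> assumption
  · intro v _ w hw
    exact ⟨x, (mem_filter.1 hw).2.1.symm⟩

theorem caseB (hno : ¬ Emb G Γ)
    (a b x y : V) (hx : ¬ (x = a ∨ x = b)) (hy : ¬ (y = a ∨ y = b))
    (hG : ∀ u v, G.Adj u v → ((u = a ∨ u = b) ↔ ¬ (v = a ∨ v = b)) ∨ s(u, v) = s(x, y)) :
    tri Γ ≤ (Fintype.card V + 1) * n ^ 2 := by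
  classical
  refine tri2 Γ _ fun p q r s hpq hrs hpr hps hqr hqs => ?_
  by_contra hc
  have n1 := hrs.ne
  have n2 := hpr.ne
  have n3 := hps.ne
  have n4 := hqr.ne
  have n5 := hqs.ne
  have s1 := hrs.symm
  have s2 := hpr.symm
  have s3 := hps.symm
  have s4 := hqr.symm
  have s5 := hqs.symm
  refine hno (embed G Γ (fun u => u = a ∨ u = b ∨ u = x ∨ u = y)
    (fun u => if u = a then p else if u = b then q else if u = x then r else s)
    (fun _ => univ.filter (fun w => Γ.Adj p w ∧ Γ.Adj q w)) ?_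
    (fun _ _ => (not_le.1 hc).le) ?_ ?_ ?_ ?_ ?_)
  · intro u v hu hv h
    split_ifs at h <;> grind
  · intro u v h
    have := hG u v h
    rw [Sym2.eq_iff] at this
    tauto
  · intro u v h hu hv
    have := hG u v h
    have := h.ne
    rw [Sym2.eq_iff] at *
    split_ifs <;> first | assumption | grind
  · intro u v h hu hv w hw
    obtain ⟨w1, w2⟩ := (mem_filter.1 hw).2
    have := hG u v h
    rw [Sym2.eq_iff] at this
    split_ifs <;> first | assumption | grind
  · intro u _
    split_ifs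
    · exact ⟨r, hpr⟩
    · exact ⟨r, hqr⟩
    · exact ⟨p, s2⟩
    · exact ⟨p, s3⟩
  · intro v _ w hw
    exact ⟨p, (mem_filter.1 hw).2.1.symm⟩

theorem caseC' (hno : ¬ Emb G Γ)
    (h p q : V) (h1 : ∀ u v, G.Adj u v → u ≠ h → v ≠ h → u = p ∨ u = q ∨ v = p ∨ v = q)
    (h2 : p ≠ h → q ≠ h → ¬ G.Adj p q)
    (h3 : p ≠ h → q ≠ h → p ≠ q → ∀ w, w ≠ h → G.Adj w p → ¬ G.Adj w q) :
    tri Γ ≤ (Fintype.card V + 1) * n ^ 2 := by
  classical
  refine tri1 Γ _ fun v x y hx hy tx ty => ?_
  by_contra hxy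
  have n1 := hx.ne
  have n2 := hy.ne
  have s1 := hx.symm
  have s2 := hy.symm
  refine hno (embed G Γ (fun u => u = h ∨ u = p ∨ u = q)
    (fun u => if u = h then v else if u = p then x else y)
    (fun w => if p ≠ h ∧ G.Adj w p then Γ.neighborFinset v ∩ Γ.neighborFinset x
      else Γ.neighborFinset v ∩ Γ.neighborFinset y) ?_ ?_ ?_ ?_ ?_ ?_ ?_)
  · intro u v hu hv h
    split_ifs at h <;> grind
  · intro w _
    split_ifs
    · exact tx.le
    · exact ty.le
  · intro u v huv
    have := h1 u v huv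
    tauto
  · intro u w huw hu hw
    have := huw.ne
    have := huw.symm
    split_ifs <;> first | assumption | grind
  · intro u w huw hu hw z hz
    have := huw.symm
    split_ifs at hz ⊢ <;>
      simp only [mem_inter, SimpleGraph.mem_neighborFinset] at hz <;>
      first | exact hz.1 | exact hz.2 | grind
  · intro u _
    split_ifs
    · exact ⟨x, hx⟩
    · exact ⟨v, s1⟩
    · exact ⟨v, s2⟩
  · intro w _ z hz
    refine ⟨v, ?_⟩
    split_ifs at hz <;>
      · simp only [mem_inter, SimpleGraph.mem_neighborFinset] at hz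
        exact hz.1.symm

theorem caseC (hno : ¬ Emb G Γ)
    (h : V) (e1 e2 : Sym2 V)
    (hG : ∀ u v, G.Adj u v → u ≠ h → v ≠ h → s(u, v) = e1 ∨ s(u, v) = e2) :
    tri Γ ≤ (Fintype.card V + 1) * n ^ 2 := by
  classical
  induction e1 using Sym2.ind with
  | h a b =>
  induction e2 using Sym2.ind with
  | h c d =>
  simp only [Sym2.eq_iff] at hG
  have key : ∀ p : V, (p = a ∨ p = b) → (p = c ∨ p = d) →
      tri Γ ≤ (Fintype.card V + 1) * n ^ 2 := by
    intro p p1 p2
    refine caseC' G Γ hno h p p (fun u v huv hu hv => ?_) (fun _ _ => G.irrefl)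
      (fun _ _ e => absurd rfl e)
    have := hG u v huv hu hv
    grind
  by_cases e1 : a = c ∨ a = d
  · exact key a (Or.inl rfl) e1
  by_cases e2 : b = c ∨ b = d
  · exact key b (Or.inr rfl) e2
  refine caseC' G Γ hno h a c (fun u v huv hu hv => ?_) (fun ha hc hac => ?_)
    (fun ha hc _ w hw wa wc => ?_)
  · have := hG u v huv hu hv
    grind
  · have := hG a c hac ha hc
    grind
  · have := hG w a wa hw ha
    have := hG w c wc hw hc
    have := wa.ne
    have := wc.ne
    grind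

end Cases

end Pool.Agent.H17.Exp
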