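import Mathlib

/-! Triangle counts and greedy embeddings for expansions of graphs. -/

namespace Pool.Agent.H17.Exp

open Finset

theorem sdr {J α : Type*} [Fintype J] [DecidableEq α] (S : J → Finset α) (B : Finset α)
    (h : ∀ j, Fintype.card J + B.card ≤ (S j).card) :
    ∃ g : J → α, Function.Injective g ∧ ∀ j, g j ∈ S j ∧ g j ∉ B := by
  classical
  obtain ⟨g, h1, h2⟩ := (all_card_le_biUnion_card_iff_exists_injective (fun j => S j \ B)).1 (by
    intro s
    rcases s.eq_empty_or_nonempty with rfl | ⟨j, hj⟩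
    · simp
    · have a1 := card_le_card (subset_biUnion_of_mem (fun j => S j \ B) hj)
      have a2 := le_card_sdiff B (S j)
      have a3 := card_le_univ s
      have := h j
      omega)
  exact ⟨g, h1, fun j => mem_sdiff.1 (h2 j)⟩

/-- `Γ` contains a copy of `G` which has no isolated vertex of `Γ` -/
def Emb {V α : Type*} (G : SimpleGraph V) (Γ : SimpleGraph α) : Prop :=
  ∃ f : V → α, Function.Injective f ∧ (∀ u v, G.Adj u v → Γ.Adj (f u) (f v)) ∧
    ∀ u, ∃ w, Γ.Adj (f u) w

theorem embed {V α : Type*} [Fintype V] [DecidableEq α] (G : SimpleGraph V) (Γ : SimpleGraph α)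
    (C : V → Prop) (φ : V → α) (S : V → Finset α)
    (hφ : ∀ u v, C u → C v → φ u = φ v → u = v)
    (hS : ∀ v, ¬ C v → Fintype.card V ≤ (S v).card)
    (h1 : ∀ u v, G.Adj u v → C u ∨ C v)
    (h2 : ∀ u v, G.Adj u v → C u → C v → Γ.Adj (φ u) (φ v))
    (h3 : ∀ u v, G.Adj u v → C u → ¬ C v → ∀ z ∈ S v, Γ.Adj (φ u) z)
    (h4 : ∀ u, C u → ∃ w, Γ.Adj (φ u) w) (h5 : ∀ v, ¬ C v → ∀ z ∈ S v, ∃ w, Γ.Adj z w) :
    Emb G Γ := by
  classical
  obtain ⟨g, g1, g2⟩ := sdr (J := {v // ¬ C v}) (fun v => S v.1) ((univ.filter C).image φ) (by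
    intro j
    have a1 := hS j.1 j.2
    have a2 := Fintype.card_subtype (fun v => ¬ C v)
    have a3 := card_image_le (s := (univ.filter C : Finset V)) (f := φ)
    have a4 := card_filter_add_card_filter_not (s := (univ : Finset V)) C
    rw [card_univ] at a4
    omega)
  refine ⟨fun v => if h : C v then φ v else g ⟨v, h⟩, fun u v huv => ?_, fun u v huv => ?_,
    fun u => ?_⟩
  · by_cases a : C u <;> by_cases b : C v <;> simp only [a, b, dif_pos, dif_neg,
      not_false_eq_true] at huv
    · exact hφ u v a b huv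
    · exact absurd (huv ▸ mem_image_of_mem φ (mem_filter.2 ⟨mem_univ u, a⟩)) (g2 ⟨v, b⟩).2
    · exact absurd (huv.symm ▸ mem_image_of_mem φ (mem_filter.2 ⟨mem_univ v, b⟩)) (g2 ⟨u, a⟩).2
    · exact congrArg Subtype.val (g1 huv)
  · by_cases a : C u <;> by_cases b : C v <;> simp only [a, b, dif_pos, dif_neg,
      not_false_eq_true]
    · exact h2 u v huv a b
    · exact h3 u v huv a b _ (g2 ⟨v, b⟩).1
    · exact (h3 v u huv.symm b a _ (g2 ⟨u, a⟩).1).symm
    · exact absurd (h1 u v huv) (by simp [a, b])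
  · by_cases a : C u
    · simpa only [a, dif_pos] using h4 u a
    · simpa only [a, dif_neg, not_false_eq_true] using h5 u a _ (g2 ⟨u, a⟩).1

section Count

variable {n : ℕ} (Γ : SimpleGraph (Fin n)) [DecidableRel Γ.Adj]

/-- ordered triangle count -/
def tri : ℕ := ∑ v, ∑ x ∈ Γ.neighborFinset v, (Γ.neighborFinset v ∩ Γ.neighborFinset x).card

theorem sq_count {α β : Type*} [DecidableEq α] [DecidableEq β] (A : Finset α) (B : Finset β)
    (r : α → β → Prop) [∀ a b, Decidable (r a b)] :
    ∑ x ∈ A, (B.filter (r x)).card ^ 2 =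
      ∑ a ∈ B, ∑ b ∈ B, (A.filter (fun x => r x a ∧ r x b)).card := by
  simp only [card_filter, sq, sum_mul_sum]
  rw [sum_comm]
  refine sum_congr rfl fun a _ => ?_
  rw [sum_comm]
  refine sum_congr rfl fun b _ => sum_congr rfl fun x _ => ?_
  by_cases h1 : r x a <;> by_cases h2 : r x b <;> simp [h1, h2]

theorem diag_bound {β : Type*} [DecidableEq β] (B : Finset β) (g : β → β → ℕ) (d : β → ℕ) (t : ℕ)
    (h1 : ∀ a ∈ B, g a a ≤ d a) (h2 : ∀ a ∈ B, ∀ b ∈ B, a ≠ b → g a b ≤ t) :
    ∑ a ∈ B, ∑ b ∈ B, g a b ≤ ∑ a ∈ B, d a + B.card ^ 2 * t := by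
  calc _ ≤ ∑ a ∈ B, (d a + B.card * t) := by
        refine sum_le_sum fun a ha => ?_
        calc _ ≤ ∑ b ∈ B, ((if a = b then d a else 0) + t) := by
              refine sum_le_sum fun b hb => ?_
              split_ifs with e
              · subst e; exact (h1 a ha).trans (Nat.le_add_right _ _)
              · rw [zero_add]; exact h2 a ha b hb e
          _ = _ := by rw [sum_add_distrib, sum_ite_eq, if_pos ha, sum_const, smul_eq_mul]
    _ = _ := by rw [sum_add_distrib, sum_const, smul_eq_mul]; ring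

theorem inter_eq (v x : Fin n) : Γ.neighborFinset v ∩ Γ.neighborFinset x =
    (Γ.neighborFinset v).filter (Γ.Adj x) := by
  ext a; simp

theorem tri3 (t : ℕ) (h : ∀ a b c : Fin n, a ≠ b → a ≠ c → b ≠ c →
    (univ.filter (fun x => Γ.Adj a x ∧ Γ.Adj b x ∧ Γ.Adj c x)).card ≤ t) :
    tri Γ ≤ (t + 3) * n ^ 2 := by
  have h1 : ∀ v, (∑ x ∈ Γ.neighborFinset v, (Γ.neighborFinset v ∩ Γ.neighborFinset x).card) ^ 2 ≤
      (t + 1) * (Γ.neighborFinset v).card ^ 3 := by
    intro v
    refine sq_sum_le_card_mul_sum_sq.trans ?_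
    simp only [inter_eq]
    rw [sq_count]
    have := diag_bound (Γ.neighborFinset v)
      (fun a b => ((Γ.neighborFinset v).filter (fun x => Γ.Adj x a ∧ Γ.Adj x b)).card)
      (fun _ => (Γ.neighborFinset v).card) t (fun a _ => card_filter_le _ _) (by
        intro a ha b hb hab
        refine le_trans (card_le_card fun x hx => ?_) (h v a b
          ((Γ.mem_neighborFinset _ _).1 ha).ne ((Γ.mem_neighborFinset _ _).1 hb).ne hab)
        simp only [mem_filter, SimpleGraph.mem_neighborFinset, mem_univ, true_and] at hx ⊢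
        exact ⟨hx.1, hx.2.1.symm, hx.2.2.symm⟩)
    rw [sum_const, smul_eq_mul] at this
    calc _ ≤ (Γ.neighborFinset v).card * ((Γ.neighborFinset v).card * (Γ.neighborFinset v).card +
          (Γ.neighborFinset v).card ^ 2 * t) := Nat.mul_le_mul_left _ this
      _ = _ := by ring
  have h2 : ∑ v, (Γ.neighborFinset v).card ^ 3 ≤ (t + 3) * n ^ 3 := by
    have e1 : ∑ v, (Γ.neighborFinset v).card ^ 3 =
        ∑ c, ∑ v ∈ Γ.neighborFinset c, (univ.filter (Γ.Adj v)).card ^ 2 := by
      have : ∀ c, ∑ v ∈ Γ.neighborFinset c, (univ.filter (Γ.Adj v)).card ^ 2 =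
          ∑ v, if Γ.Adj v c then (Γ.neighborFinset v).card ^ 2 else 0 := by
        intro c
        rw [← sum_filter]
        refine sum_congr ?_ fun v _ => by rw [SimpleGraph.neighborFinset_eq_filter]
        ext v; simp [Γ.adj_comm]
      simp only [this]
      rw [sum_comm]
      refine sum_congr rfl fun v _ => ?_
      rw [← sum_filter, sum_const, smul_eq_mul, ← SimpleGraph.neighborFinset_eq_filter]; ring
    rw [e1]
    have e2 : ∀ c, ∑ v ∈ Γ.neighborFinset c, (univ.filter (Γ.Adj v)).card ^ 2 ≤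
        (t + 3) * n ^ 2 := by
      intro c
      rw [sq_count]
      calc _ ≤ ∑ a : Fin n, ∑ b : Fin n, (t + (if a = b then n else 0) + (if a = c then n else 0) +
            (if b = c then n else 0)) := by
            refine sum_le_sum fun a _ => sum_le_sum fun b _ => ?_
            have hn : ((Γ.neighborFinset c).filter (fun x => Γ.Adj x a ∧ Γ.Adj x b)).card ≤ n := by
              simpa using card_le_univ
                ((Γ.neighborFinset c).filter (fun x => Γ.Adj x a ∧ Γ.Adj x b))
            by_cases e1 : a = b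
            · rw [if_pos e1]; omega
            by_cases e2 : a = c
            · rw [if_pos e2]; omega
            by_cases e3 : b = c
            · rw [if_pos e3]; omega
            refine le_trans (le_trans (card_le_card fun x hx => ?_) (h a b c e1 e2 e3)) (by omega)
            simp only [mem_filter, SimpleGraph.mem_neighborFinset, mem_univ, true_and] at hx ⊢
            exact ⟨hx.2.1.symm, hx.2.2.symm, hx.1⟩
        _ = _ := by
            simp only [sum_add_distrib, sum_ite_eq, sum_ite_eq', mem_univ, if_true, sum_const,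
              card_univ, Fintype.card_fin, smul_eq_mul, mul_ite, mul_zero]
            ring
    calc _ ≤ ∑ _c : Fin n, (t + 3) * n ^ 2 := sum_le_sum fun c _ => e2 c
      _ = _ := by rw [sum_const, card_univ, Fintype.card_fin, smul_eq_mul]; ring
  have h3 : tri Γ ^ 2 ≤ ((t + 3) * n ^ 2) ^ 2 := by
    refine sq_sum_le_card_mul_sum_sq.trans ?_
    rw [card_univ, Fintype.card_fin]
    calc _ ≤ n * ∑ v, (t + 1) * (Γ.neighborFinset v).card ^ 3 :=
          Nat.mul_le_mul_left _ (sum_le_sum fun v _ => h1 v)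
      _ ≤ n * ((t + 3) * ((t + 3) * n ^ 3)) := by
          rw [← mul_sum]
          exact Nat.mul_le_mul_left _ (Nat.mul_le_mul (by omega) h2)
      _ = _ := by ring
  exact (Nat.pow_le_pow_iff_left (by norm_num)).1 h3

theorem quad_bound (T N t : ℕ) (h : T ^ 2 ≤ N * (T + N * t ^ 2)) : T ≤ (t + 1) * N := by
  by_contra hT
  obtain ⟨k, rfl⟩ := Nat.exists_eq_add_of_lt (not_le.1 hT)
  nlinarith [Nat.zero_le (t * N * N), Nat.zero_le (t * N * k), Nat.zero_le (N * k),
    Nat.zero_le (t * N), Nat.zero_le (k * k)]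

theorem tri2 (t : ℕ) (h : ∀ u v x y : Fin n, u ≠ v → Γ.Adj x y → Γ.Adj u x → Γ.Adj u y →
    Γ.Adj v x → Γ.Adj v y → (univ.filter (fun z => Γ.Adj u z ∧ Γ.Adj v z)).card ≤ t) :
    tri Γ ≤ (t + 1) * n ^ 2 := by
  set E := (univ : Finset (Fin n × Fin n)).filter (fun p => Γ.Adj p.1 p.2) with hE
  set r : Fin n × Fin n → Fin n → Prop := fun p a => Γ.Adj p.1 a ∧ Γ.Adj p.2 a with hr
  have e1 : tri Γ = ∑ p ∈ E, (univ.filter (r p)).card := by
    rw [tri, hE, sum_filter, ← univ_product_univ, sum_product]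
    refine sum_congr rfl fun v _ => ?_
    rw [← sum_filter, ← SimpleGraph.neighborFinset_eq_filter]
    refine sum_congr rfl fun x _ => congrArg _ ?_
    ext a; simp [hr]
  have e2 := sq_count E univ r
  have e3 := diag_bound univ (fun a b => (E.filter (fun p => r p a ∧ r p b)).card)
    (fun a => (E.filter (fun p => r p a)).card) (t ^ 2) (fun a _ => by simp) (by
      intro a _ b _ hab
      rcases (E.filter (fun p => r p a ∧ r p b)).eq_empty_or_nonempty with h0 | ⟨p, hp⟩
      · simp [h0]
      · obtain ⟨p1, p2, p3⟩ := mem_filter.1 hp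
        have := h a b p.1 p.2 hab (mem_filter.1 p1).2 p2.1.symm p2.2.symm p3.1.symm p3.2.symm
        calc _ ≤ ((univ.filter (fun z => Γ.Adj a z ∧ Γ.Adj b z)) ×ˢ
              (univ.filter (fun z => Γ.Adj a z ∧ Γ.Adj b z))).card := by
              refine card_le_card fun q hq => ?_
              obtain ⟨_, q2, q3⟩ := mem_filter.1 hq
              simp only [mem_product, mem_filter, mem_univ, true_and]
              exact ⟨⟨q2.1.symm, q3.1.symm⟩, q2.2.symm, q3.2.symm⟩
          _ ≤ _ := by rw [card_product, sq]; exact Nat.mul_le_mul this this)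
  have e4 : ∑ a, (E.filter (fun p => r p a)).card = ∑ p ∈ E, (univ.filter (r p)).card := by
    simp only [card_filter]
    exact sum_comm
  have e5 : (∑ p ∈ E, (univ.filter (r p)).card) ^ 2 ≤
      E.card * ∑ p ∈ E, (univ.filter (r p)).card ^ 2 := sq_sum_le_card_mul_sum_sq
  have e6 : E.card ≤ n ^ 2 := by
    have := card_le_univ E
    rwa [Fintype.card_prod, Fintype.card_fin, ← sq] at this
  rw [card_univ, Fintype.card_fin] at e3
  rw [e1]
  rw [e2] at e5
  rw [e4] at e3
  exact quad_bound _ _ _ (e5.trans (Nat.mul_le_mul e6 e3))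

theorem tri1 (t : ℕ) (h : ∀ v x y : Fin n, Γ.Adj v x → Γ.Adj v y →
    t < (Γ.neighborFinset v ∩ Γ.neighborFinset x).card →
    t < (Γ.neighborFinset v ∩ Γ.neighborFinset y).card → x = y) :
    tri Γ ≤ (t + 1) * n ^ 2 := by
  have : ∀ v, ∑ x ∈ Γ.neighborFinset v, (Γ.neighborFinset v ∩ Γ.neighborFinset x).card ≤
      (t + 1) * n := by
    intro v
    set B := (Γ.neighborFinset v).filter
      (fun x => t < (Γ.neighborFinset v ∩ Γ.neighborFinset x).card) with hB
    have hB1 : B.card ≤ 1 := card_le_one.2 fun x hx y hy =>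
      h v x y ((Γ.mem_neighborFinset _ _).1 (mem_filter.1 hx).1)
        ((Γ.mem_neighborFinset _ _).1 (mem_filter.1 hy).1) (mem_filter.1 hx).2 (mem_filter.1 hy).2
    have hd : (Γ.neighborFinset v).card ≤ n := by simpa using card_le_univ (Γ.neighborFinset v)
    calc _ ≤ ∑ x ∈ Γ.neighborFinset v,
          (t + if t < (Γ.neighborFinset v ∩ Γ.neighborFinset x).card then n else 0) := by
          refine sum_le_sum fun x _ => ?_
          have : (Γ.neighborFinset v ∩ Γ.neighborFinset x).card ≤ n := by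
            simpa using card_le_univ (Γ.neighborFinset v ∩ Γ.neighborFinset x)
          split_ifs <;> omega
      _ = (Γ.neighborFinset v).card * t + B.card * n := by
          rw [sum_add_distrib, ← sum_filter, sum_const, sum_const, smul_eq_mul, smul_eq_mul]
      _ ≤ n * t + 1 * n := by gcongr
      _ = _ := by ring
  calc _ ≤ ∑ _v : Fin n, (t + 1) * n := sum_le_sum fun v _ => this v
    _ = _ := by rw [sum_const, card_univ, Fintype.card_fin, smul_eq_mul]; ring

end Count

end Pool.Agent.H17.Exp
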