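import Pool.Agent.H17.Exp.Shape

/-! Uniform hypergraphs of any uniformity: heavy pairs are cores of large sunflowers. -/

set_option autoImplicit false

namespace Pool.Agent.H17.Exp

open Finset

theorem exists_disjoint {α : Type*} [DecidableEq α] (P : Finset (Finset α)) (B : Finset α)
    (hd : ∀ p ∈ P, ∀ q ∈ P, p ≠ q → Disjoint p q) (h : B.card < P.card) :
    ∃ p ∈ P, Disjoint p B := by
  by_contra hno
  push Not at hno
  have hx : ∀ p : Finset α, ∃ x : α, p ∈ P → x ∈ p ∧ x ∈ B := by
    intro p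
    by_cases hp : p ∈ P
    · obtain ⟨x, h1, h2⟩ := not_disjoint_iff.1 (hno p hp)
      exact ⟨x, fun _ => ⟨h1, h2⟩⟩
    · obtain ⟨x, _⟩ : P.Nonempty := card_pos.1 (by omega)
      obtain ⟨y, _, _⟩ := not_disjoint_iff.1 (hno x ‹_›)
      exact ⟨y, fun h => absurd h hp⟩
  choose x hx using hx
  have := card_le_card_of_injOn (s := P) (t := B) x (fun p hp => (hx p hp).2) (by
    intro p hp q hq e
    by_contra hpq
    exact disjoint_left.1 (hd p hp q hq hpq) (hx p hp).1 (e ▸ (hx q hq).1))
  omega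

theorem sdrSets {J α : Type*} [Fintype J] [DecidableEq J] [DecidableEq α] (m : ℕ) (hm0 : 1 ≤ m)
    (P : J → Finset (Finset α)) (B : Finset α) (hm : ∀ j, ∀ p ∈ P j, p.card = m)
    (hd : ∀ j, ∀ p ∈ P j, ∀ q ∈ P j, p ≠ q → Disjoint p q)
    (h : ∀ j, B.card + m * Fintype.card J ≤ (P j).card) :
    ∃ p : J → Finset α, (∀ j, p j ∈ P j ∧ Disjoint (p j) B) ∧ ∀ i j, i ≠ j → Disjoint (p i) (p j) := by
  have key : ∀ s : Finset J, ∃ p : J → Finset α, (∀ j ∈ s, p j ∈ P j ∧ Disjoint (p j) B) ∧
      ∀ i ∈ s, ∀ j ∈ s, i ≠ j → Disjoint (p i) (p j) := by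
    intro s
    induction s using Finset.induction_on with
    | empty => exact ⟨fun _ => ∅, by simp, by simp⟩
    | insert j s hj ih =>
      obtain ⟨p, h1, h2⟩ := ih
      have c1 : (s.biUnion p).card ≤ m * s.card := by
        refine card_biUnion_le.trans ?_
        rw [mul_comm, ← smul_eq_mul]
        exact sum_le_card_nsmul _ _ _ fun i hi => (hm i _ (h1 i hi).1).le
      have c2 : s.card < Fintype.card J := by
        have := card_le_univ (insert j s)
        rw [card_insert_of_notMem hj] at this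
        omega
      have c3 : (B ∪ s.biUnion p).card < (P j).card := by
        have a1 := card_union_le B (s.biUnion p)
        have a2 := h j
        have a3 : m * s.card < m * Fintype.card J := Nat.mul_lt_mul_of_pos_left c2 hm0
        omega
      obtain ⟨q, q1, q2⟩ := exists_disjoint (P j) _ (hd j) c3
      rw [disjoint_union_right] at q2
      refine ⟨Function.update p j q, fun i hi => ?_, fun a ha b hb hab => ?_⟩
      · rcases eq_or_ne i j with rfl | hij
        · rw [Function.update_self]; exact ⟨q1, q2.1⟩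
        · rw [Function.update_of_ne hij]; exact h1 i ((mem_insert.1 hi).resolve_left hij)
      · rcases eq_or_ne a j with rfl | haj
        · rw [Function.update_self, Function.update_of_ne (Ne.symm hab)]
          exact q2.2.mono_right (subset_biUnion_of_mem p ((mem_insert.1 hb).resolve_left hab.symm))
        · rw [Function.update_of_ne haj]
          rcases eq_or_ne b j with rfl | hbj
          · rw [Function.update_self]
            exact (q2.2.mono_right
              (subset_biUnion_of_mem p ((mem_insert.1 ha).resolve_left haj))).symm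
          · rw [Function.update_of_ne hbj]
            exact h2 a ((mem_insert.1 ha).resolve_left haj) b ((mem_insert.1 hb).resolve_left hbj)
              hab
  obtain ⟨p, h1, h2⟩ := key univ
  exact ⟨p, fun j => h1 j (mem_univ _), fun i j => h2 i (mem_univ _) j (mem_univ _)⟩

variable {n : ℕ}

/-- a family of pairwise disjoint petals of a sunflower with core `{x, y}` -/
def Petals (H : Finset (Finset (Fin n))) (x y : Fin n) (P : Finset (Finset (Fin n))) : Prop :=
  (∀ p ∈ P, x ∉ p ∧ y ∉ p ∧ insert x (insert y p) ∈ H) ∧ ∀ p ∈ P, ∀ q ∈ P, p ≠ q → Disjoint p q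

/-- pairs which are the core of a sunflower with at least `K` petals -/
def heavyU (H : Finset (Finset (Fin n))) (K : ℕ) : SimpleGraph (Fin n) where
  Adj x y := x ≠ y ∧ ∃ P : Finset (Finset (Fin n)), K ≤ P.card ∧ Petals H x y P
  symm := ⟨fun x y h => by
    obtain ⟨h1, P, h2, h3, h4⟩ := h
    exact ⟨h1.symm, P, h2, fun p hp => ⟨(h3 p hp).2.1, (h3 p hp).1,
      by rw [insert_comm]; exact (h3 p hp).2.2⟩, h4⟩⟩
  loopless := ⟨fun _ h => h.1 rfl⟩

theorem light {m : ℕ} (hm : 1 ≤ m) (H : Finset (Finset (Fin n))) (K : ℕ)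
    (hH : ∀ e ∈ H, e.card = m + 2) {x y : Fin n} (hxy : x ≠ y) (hl : ¬ (heavyU H K).Adj x y) :
    (H.filter (fun e => x ∈ e ∧ y ∈ e)).card ≤ K * m * n.choose (m - 1) := by
  classical
  obtain ⟨P, hP, hmax⟩ := exists_max_image (univ.filter (fun P => Petals H x y P)) card
    ⟨∅, mem_filter.2 ⟨mem_univ _, by simp [Petals]⟩⟩
  have hP := (mem_filter.1 hP).2
  have hK : P.card ≤ K := by
    by_contra h
    exact hl ⟨hxy, P, by omega, hP⟩
  have hcard : ∀ p ∈ P, p.card = m := fun p hp => by
    obtain ⟨h1, h2, h3⟩ := hP.1 p hp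
    have := hH _ h3
    rw [card_insert_of_notMem (by simp [h1, hxy]), card_insert_of_notMem h2] at this
    omega
  set W := P.biUnion id with hW
  have hWc : W.card ≤ K * m := by
    refine card_biUnion_le.trans ((sum_le_card_nsmul _ _ m fun p hp => (hcard p hp).le).trans ?_)
    rw [smul_eq_mul]
    exact Nat.mul_le_mul_right _ hK
  have hsub : H.filter (fun e => x ∈ e ∧ y ∈ e) ⊆
      (W ×ˢ powersetCard (m - 1) (univ : Finset (Fin n))).image
        (fun q => insert x (insert y (insert q.1 q.2))) := by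
    intro e he
    obtain ⟨he, hx, hy⟩ := mem_filter.1 he
    set p := (e.erase x).erase y with hp
    have hpx : x ∉ p := by simp [hp]
    have hpy : y ∉ p := by simp [hp]
    have hpe : insert x (insert y p) = e := by
      rw [hp, insert_erase (by simp [hy, hxy.symm]), insert_erase hx]
    have hpc : p.card = m := by
      rw [hp, card_erase_of_mem (by simp [hy, hxy.symm]), card_erase_of_mem hx, hH e he]
      omega
    obtain ⟨w, hwW, hwp⟩ : ∃ w, w ∈ W ∧ w ∈ p := by
      by_contra hno
      push Not at hno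
      have hpne : p.Nonempty := card_pos.1 (by omega)
      have hdis : ∀ q ∈ P, Disjoint p q := fun q hq => disjoint_left.2 fun z hz hz2 =>
        hno z (mem_biUnion.2 ⟨q, hq, hz2⟩) hz
      have hpP : p ∉ P := fun h => by
        obtain ⟨z, hz⟩ := hpne
        exact disjoint_left.1 (hdis p h) hz hz
      have := hmax (insert p P) (mem_filter.2 ⟨mem_univ _, fun q hq => ?_, fun q hq q' hq' hne => ?_⟩)
      · rw [card_insert_of_notMem hpP] at this
        omega
      · rcases mem_insert.1 hq with rfl | hq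
        · exact ⟨hpx, hpy, by rw [hpe]; exact he⟩
        · exact hP.1 q hq
      · rcases mem_insert.1 hq with rfl | hq
        · exact hdis q' ((mem_insert.1 hq').resolve_left (Ne.symm hne))
        · rcases mem_insert.1 hq' with rfl | hq'
          · exact (hdis q hq).symm
          · exact hP.2 q hq q' hq' hne
    refine mem_image.2 ⟨(w, p.erase w), mem_product.2 ⟨hwW, mem_powersetCard.2
      ⟨subset_univ _, ?_⟩⟩, ?_⟩
    · rw [card_erase_of_mem hwp, hpc]
    · show insert x (insert y (insert w (p.erase w))) = e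
      rw [insert_erase hwp, hpe]
  refine (card_le_card hsub).trans (card_image_le.trans ?_)
  rw [card_product, card_powersetCard, card_univ, Fintype.card_fin]
  exact Nat.mul_le_mul_right _ hWc

open Classical in
/-- edges with a light pair -/
theorem two_light {m : ℕ} (hm : 1 ≤ m) (H : Finset (Finset (Fin n))) (K : ℕ)
    (hH : ∀ e ∈ H, e.card = m + 2) :
    2 * (H.filter fun e => ¬ ∀ x ∈ e, ∀ y ∈ e, x ≠ y → (heavyU H K).Adj x y).card ≤
      n ^ 2 * (K * m * n.choose (m - 1)) := by
  set Γ := heavyU H K with hΓ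
  set L := H.filter fun e => ¬ ∀ x ∈ e, ∀ y ∈ e, x ≠ y → Γ.Adj x y with hL
  have h1 := sum_card_bipartiteAbove_eq_sum_card_bipartiteBelow (s := L)
    (t := (univ : Finset (Fin n × Fin n)))
    (fun e p => p.1 ∈ e ∧ p.2 ∈ e ∧ p.1 ≠ p.2 ∧ ¬ Γ.Adj p.1 p.2)
  have h2 : 2 * L.card ≤ ∑ e ∈ L, ((univ : Finset (Fin n × Fin n)).bipartiteAbove
      (fun e p => p.1 ∈ e ∧ p.2 ∈ e ∧ p.1 ≠ p.2 ∧ ¬ Γ.Adj p.1 p.2) e).card := by
    rw [mul_comm, ← smul_eq_mul]
    refine card_nsmul_le_sum _ _ _ fun e he => ?_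
    have h3 := (mem_filter.1 he).2
    push Not at h3
    obtain ⟨x, hx, y, hy, hxy, hn⟩ := h3
    have hsub : ({(x, y), (y, x)} : Finset (Fin n × Fin n)) ⊆
        (univ : Finset (Fin n × Fin n)).bipartiteAbove
          (fun e p => p.1 ∈ e ∧ p.2 ∈ e ∧ p.1 ≠ p.2 ∧ ¬ Γ.Adj p.1 p.2) e := by
      intro p hp
      rw [mem_bipartiteAbove]
      rcases mem_insert.1 hp with rfl | hp
      · exact ⟨mem_univ _, hx, hy, hxy, hn⟩
      · rw [mem_singleton.1 hp]
        exact ⟨mem_univ _, hy, hx, hxy.symm, fun h => hn h.symm⟩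
    refine le_trans (le_of_eq ?_) (card_le_card hsub)
    rw [card_pair (by simp [hxy])]
  refine h2.trans (h1.le.trans ?_)
  have h4 : ∑ p : Fin n × Fin n, (L.bipartiteBelow
      (fun e p => p.1 ∈ e ∧ p.2 ∈ e ∧ p.1 ≠ p.2 ∧ ¬ Γ.Adj p.1 p.2) p).card ≤
      ∑ _p : Fin n × Fin n, K * m * n.choose (m - 1) := by
    refine sum_le_sum fun p _ => ?_
    by_cases hp : p.1 ≠ p.2 ∧ ¬ Γ.Adj p.1 p.2
    · refine (card_le_card fun e he => ?_).trans (light hm H K hH hp.1 hp.2)
      obtain ⟨he, h5⟩ := mem_bipartiteBelow _ |>.1 he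
      exact mem_filter.2 ⟨(mem_filter.1 he).1, h5.1, h5.2.1⟩
    · rw [card_eq_zero.2]
      · exact Nat.zero_le _
      · refine eq_empty_of_forall_notMem fun e he => ?_
        obtain ⟨he, h5⟩ := mem_bipartiteBelow _ |>.1 he
        exact hp h5.2.2
  refine h4.trans (le_of_eq ?_)
  rw [sum_const, card_univ, Fintype.card_prod, Fintype.card_fin, smul_eq_mul, sq]

theorem expandU {V : Type*} [Fintype V] (G : SimpleGraph V) [Fintype G.edgeSet] {m : ℕ}
    (hm : 1 ≤ m) (H : Finset (Finset (Fin n))) (hH : ∀ e ∈ H, e.card = m + 2) (K : ℕ)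
    (hK : Fintype.card V + m * Fintype.card G.edgeSet ≤ K)
    (f : V → Fin n)
    (hf : ∀ u v, G.Adj u v → (heavyU H K).Adj (f u) (f v)) :
    ∃ g : G.edgeSet × Fin m → Fin n, Function.Injective g ∧ (∀ e (x : V), g e ≠ f x) ∧
      ∀ (u v : V) (h : G.Adj u v),
        insert (f u) (insert (f v) (univ.image fun i =>
          g (⟨s(u, v), (SimpleGraph.mem_edgeSet G).mpr h⟩, i))) ∈ H := by
  classical
  have hex : ∀ e : G.edgeSet, ∃ P : Finset (Finset (Fin n)), K ≤ P.card ∧
      (∀ p ∈ P, ∀ u v, e.1 = s(u, v) → insert (f u) (insert (f v) p) ∈ H) ∧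
      (∀ p ∈ P, p.card = m) ∧ ∀ p ∈ P, ∀ q ∈ P, p ≠ q → Disjoint p q := by
    rintro ⟨e, he⟩
    induction e using Sym2.ind with
    | h a b =>
      obtain ⟨h1, P, h2, h3, h4⟩ := hf a b he
      refine ⟨P, h2, fun p hp u v huv => ?_, fun p hp => ?_, h4⟩
      · have := (h3 p hp).2.2
        rcases Sym2.eq_iff.1 huv with ⟨rfl, rfl⟩ | ⟨rfl, rfl⟩
        · exact this
        · rwa [insert_comm]
      · obtain ⟨a1, a2, a3⟩ := h3 p hp
        have := hH _ a3
        rw [card_insert_of_notMem (by simp [a1, h1]), card_insert_of_notMem a2] at this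
        omega
  choose P hP1 hP2 hP3 hP4 using hex
  obtain ⟨p, p1, p2⟩ := sdrSets m hm P (univ.image f) hP3 hP4 (fun e => by
    have a3 := card_image_le (s := (univ : Finset V)) (f := f)
    rw [card_univ] at a3
    have := hP1 e
    omega)
  have hc : ∀ e, (p e).card = m := fun e => hP3 e _ (p1 e).1
  have hmem : ∀ e i, (((p e).equivFinOfCardEq (hc e)).symm i : Fin n) ∈ p e := fun e i =>
    (((p e).equivFinOfCardEq (hc e)).symm i).2
  refine ⟨fun q => ((p q.1).equivFinOfCardEq (hc q.1)).symm q.2, ?_, ?_, ?_⟩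
  · rintro ⟨e, i⟩ ⟨e', i'⟩ h
    simp only at h
    obtain rfl : e = e' := by
      by_contra hne
      exact disjoint_left.1 (p2 e e' hne) (hmem e i) (h ▸ hmem e' i')
    have := ((p e).equivFinOfCardEq (hc e)).symm.injective (Subtype.ext h)
    rw [this]
  · rintro ⟨e, i⟩ x h
    exact disjoint_left.1 (p1 e).2 (hmem e i) (mem_image.2 ⟨x, mem_univ _, h.symm⟩)
  · intro u v h
    have himg : (univ.image fun i => ((((p ⟨s(u, v), (SimpleGraph.mem_edgeSet G).mpr h⟩).equivFinOfCardEq
        (hc _)).symm i : _) : Fin n)) = p ⟨s(u, v), (SimpleGraph.mem_edgeSet G).mpr h⟩ := by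
      ext z
      constructor
      · intro hz
        obtain ⟨i, -, rfl⟩ := mem_image.1 hz
        exact hmem _ i
      · intro hz
        exact mem_image.2 ⟨(p _).equivFinOfCardEq (hc _) ⟨z, hz⟩, mem_univ _, by simp⟩
    show insert (f u) (insert (f v) (univ.image fun i => ((((p ⟨s(u, v), (SimpleGraph.mem_edgeSet G).mpr h⟩).equivFinOfCardEq
        (hc _)).symm i : _) : Fin n))) ∈ H
    rw [himg]
    exact hP2 _ _ (p1 _).1 u v rfl

end Pool.Agent.H17.Exp
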